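import Pool.Agent.N139.AS.Stm2

/-!
Project AS (helper139), part CLIDX: subgroups with an element outside `N` that commutes with many
elements modulo the subgroup have bounded index.  Lean proof: helper768.
-/

set_option autoImplicit false
set_option linter.unusedSectionVars false

namespace Pool.Agent.N768.AS
open Pool.Agent.N139.AS Module

noncomputable section

/-- the shift by `j` on `Lam` -/
def shLj (j : ℕ) : Lam ≃+ Lam := Finsupp.domCongr (Equiv.addRight (j : ℤ))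

lemma shLj_apply (j : ℕ) (l : Lam) (i : ℤ) : shLj j l i = l (i - j) := rfl

/-- the shift by `j` on functions -/
def shAj (p j : ℕ) : (Lam →₀ ZMod p) ≃+ (Lam →₀ ZMod p) := Finsupp.domCongr (shLj j).toEquiv

lemma shAj_apply (p j : ℕ) (a : Lam →₀ ZMod p) (x : Lam) :
    shAj p j a x = a ((shLj j).symm x) := rfl

lemma trl_zero (p : ℕ) (a : Lam →₀ ZMod p) : trl p 0 a = a := by
  ext x
  rw [trl_apply, neg_zero, zero_add]

lemma trl_add (p : ℕ) (l m : Lam) (a : Lam →₀ ZMod p) : trl p (l + m) a = trl p l (trl p m a) := by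
  ext x
  rw [trl_apply, trl_apply, trl_apply]
  congr 1
  abel

lemma trl_single (p : ℕ) (l c : Lam) (r : ZMod p) :
    trl p l (Finsupp.single c r) = Finsupp.single (l + c) r := by
  unfold trl
  rw [Finsupp.domCongr_apply, Finsupp.equivMapDomain_single]
  rfl

lemma shAj_trl (p j : ℕ) (l : Lam) (a : Lam →₀ ZMod p) :
    shAj p j (trl p l a) = trl p (shLj j l) (shAj p j a) := by
  ext x
  rw [shAj_apply, trl_apply, trl_apply, shAj_apply]
  congr 1
  rw [map_add, map_neg, AddEquiv.symm_apply_apply]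

lemma shN_pow (p j : ℕ) (x : NN p) : (shN p ^ j) x = ⟨shAj p j x.a, shLj j x.l⟩ := by
  induction j with
  | zero =>
    ext i
    · show x.a i = x.a ((shLj 0).symm i)
      congr 1
      apply (shLj 0).injective
      rw [AddEquiv.apply_symm_apply]
      ext k
      rw [shLj_apply]
      simp
    · show x.l i = shLj 0 x.l i
      rw [shLj_apply]
      simp
  | succ j ih =>
    rw [pow_succ', MulAut.mul_apply, ih]
    have hL : ∀ l : Lam, shL (shLj j l) = shLj (j + 1) l := by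
      intro l
      ext i
      rw [shL_apply, shLj_apply, shLj_apply]
      congr 1
      push_cast
      ring
    ext i
    · show shAj p j x.a (shL.symm i) = shAj p (j + 1) x.a i
      rw [shAj_apply, shAj_apply]
      congr 1
      apply (shLj (j + 1)).injective
      rw [AddEquiv.apply_symm_apply, ← hL, AddEquiv.apply_symm_apply, AddEquiv.apply_symm_apply]
    · show shL (shLj j x.l) i = shLj (j + 1) x.l i
      rw [hL]

lemma tt_pow_mul {N : Type} [Group N] (S : WD N) (j : ℕ) (n : N) :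
    tt S ^ j * inn S n = inn S ((S.σ ^ j) n) * tt S ^ j := by
  induction j with
  | zero => simp
  | succ j ih =>
    rw [pow_succ', mul_assoc, ih, ← mul_assoc, tt_mul, mul_assoc, ← pow_succ', pow_succ' S.σ,
      MulAut.mul_apply]

lemma conj_g {N : Type} [Group N] (S : WD N) (j : ℕ) (n x : N) :
    ((inn S n)⁻¹ * tt S ^ j) * inn S x * ((inn S n)⁻¹ * tt S ^ j)⁻¹ =
      inn S (n⁻¹ * (S.σ ^ j) x * n) := by
  rw [mul_inv_rev, inv_inv, mul_assoc _ (tt S ^ j), tt_pow_mul, map_mul, map_mul, map_inv]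
  group

/-- conjugation of an element of `SA` -/
lemma conj_A (p : ℕ) (n : NN p) (a : Lam →₀ ZMod p) :
    n * ⟨a, 0⟩ * n⁻¹ = ⟨trl p n.l a, 0⟩ := by
  ext i
  · simp only [NN.mul_a, NN.mul_l, NN.inv_a, map_neg, add_zero, Finsupp.add_apply,
      Finsupp.neg_apply, trl_apply]
    rw [show - -n.l + (-n.l + i) = i by abel]
    abel
  · simp only [NN.mul_l, NN.inv_l, add_zero, add_neg_cancel]

lemma conj_A' (p : ℕ) (n : NN p) (a : Lam →₀ ZMod p) :
    n⁻¹ * ⟨a, 0⟩ * n = ⟨trl p (-n.l) a, 0⟩ := by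
  have := conj_A p n⁻¹ a
  rw [inv_inv, NN.inv_l] at this
  exact this

lemma mulA (p : ℕ) (a b : Lam →₀ ZMod p) : (⟨a, 0⟩ : NN p) * ⟨b, 0⟩ = ⟨a + b, 0⟩ := by
  ext1
  · show a + trl p 0 b = a + b
    rw [trl_zero]
  · show (0 : Lam) + 0 = 0
    rw [add_zero]

lemma invA (p : ℕ) (a : Lam →₀ ZMod p) : (⟨a, 0⟩ : NN p)⁻¹ = ⟨-a, 0⟩ := by
  rw [inv_eq_iff_mul_eq_one, mulA, add_neg_cancel]
  rfl


lemma shLj_single (j : ℕ) (i : ℤ) (a : ZMod 2) :
    shLj j (Finsupp.single i a) = Finsupp.single (i + j) a := by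
  unfold shLj
  rw [Finsupp.domCongr_apply, Finsupp.equivMapDomain_single]
  rfl

/-- shift minus identity -/
def sm (j : ℕ) : Lam →+ Lam := (shLj j).toAddMonoidHom - AddMonoidHom.id Lam

lemma sm_apply (j : ℕ) (l : Lam) : sm j l = shLj j l - l := rfl

/-- the finite part -/
def ee (j : ℕ) : (Fin j → ZMod 2) →+ Lam :=
  ∑ i : Fin j, (Finsupp.singleAddHom (i : ℤ)).comp (Pi.evalAddMonoidHom (fun _ => ZMod 2) i)

lemma ee_single (j : ℕ) (i : Fin j) (a : ZMod 2) :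
    ee j (Pi.single i a) = Finsupp.single (i : ℤ) a := by
  unfold ee
  rw [AddMonoidHom.finsetSum_apply, Finset.sum_eq_single i]
  · simp
  · intro k _ hk
    simp [Pi.single_eq_of_ne hk]
  · simp

lemma sm_index (j : ℕ) (hj : 0 < j) : (sm j).range.index ≠ 0 ∧ (sm j).range.index ≤ 2 ^ j := by
  let c : (Fin j → ZMod 2) →+ Lam ⧸ (sm j).range := (QuotientAddGroup.mk' (sm j).range).comp (ee j)
  have hper : ∀ (k : ℤ) (i : ℤ) (a : ZMod 2),
      (QuotientAddGroup.mk (Finsupp.single (i + j * k) a) : Lam ⧸ (sm j).range) =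
        QuotientAddGroup.mk (Finsupp.single i a) := by
    have h1 : ∀ (i : ℤ) (a : ZMod 2),
        (QuotientAddGroup.mk (Finsupp.single i a) : Lam ⧸ (sm j).range) =
          QuotientAddGroup.mk (Finsupp.single (i + j) a) := by
      intro i a
      rw [QuotientAddGroup.eq]
      refine ⟨Finsupp.single i a, ?_⟩
      rw [sm_apply, shLj_single]
      abel
    intro k
    induction k using Int.induction_on with
    | zero => intro i a; simp
    | succ k ih =>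
      intro i a
      rw [← ih i a, h1 (i + j * k) a]
      congr 2
      ring
    | pred k ih =>
      intro i a
      rw [← ih i a, h1 (i + j * (-k - 1)) a]
      congr 2
      ring
  have hsurj : Function.Surjective c := by
    have h2 : ∀ l : Lam, (QuotientAddGroup.mk l : Lam ⧸ (sm j).range) ∈ c.range := by
      intro l
      induction l using Finsupp.induction_linear with
      | zero => exact c.range.zero_mem
      | add f g hf hg => exact c.range.add_mem hf hg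
      | single i a =>
        have hj' : (0 : ℤ) < j := by exact_mod_cast hj
        have h3 := Int.emod_nonneg i hj'.ne'
        have h4 := Int.emod_lt_of_pos i hj'
        refine ⟨Pi.single ⟨(i % j).toNat, by omega⟩ a, ?_⟩
        show (QuotientAddGroup.mk (ee j _) : Lam ⧸ (sm j).range) = _
        rw [ee_single]
        have h5 := hper (i / j) (i % j) a
        rw [Int.emod_add_mul_ediv] at h5
        rw [h5]
        congr 2
        exact Int.toNat_of_nonneg h3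
    intro x
    obtain ⟨l, rfl⟩ := QuotientAddGroup.mk_surjective x
    exact h2 l
  have hfin : Finite (Lam ⧸ (sm j).range) := Finite.of_surjective c hsurj
  have hcard : Nat.card (Lam ⧸ (sm j).range) ≤ 2 ^ j := by
    have h6 := Nat.card_le_card_of_surjective c hsurj
    rw [Nat.card_eq_fintype_card (α := Fin j → ZMod 2)] at h6
    simpa using h6
  exact ⟨AddSubgroup.FiniteIndex.index_ne_zero (self := AddSubgroup.finiteIndex_of_finite_quotient), hcard⟩

/-- image of a subgroup of finite index -/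
lemma map_index (j : ℕ) (hj : 0 < j) (U : AddSubgroup Lam) (k : ℕ) (hU : U.index ≠ 0)
    (hk : U.index ≤ k) : (U.map (sm j)).index ≠ 0 ∧ (U.map (sm j)).index ≤ k * 2 ^ j := by
  obtain ⟨h1, h2⟩ := sm_index j hj
  rw [AddSubgroup.index_map]
  have h3 : (U ⊔ (sm j).ker).index ∣ U.index := AddSubgroup.index_dvd_of_le le_sup_left
  have h4 : (U ⊔ (sm j).ker).index ≠ 0 := fun h => hU (by rw [h] at h3; exact Nat.eq_zero_of_zero_dvd h3)
  have h5 : (U ⊔ (sm j).ker).index ≤ k := (Nat.le_of_dvd (Nat.pos_of_ne_zero hU) h3).trans hk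
  exact ⟨mul_ne_zero h4 h1, Nat.mul_le_mul h5 h2⟩

section lin

variable {K M : Type*} [Field K] [AddCommGroup M] [Module K M]

lemma opb (θ a b u : M →ₗ[K] M) (m : ℕ) (hθ : Function.Surjective θ) (hab : b * a = 1)
    (hu : u * θ = b * θ * a) (hfin : Module.Finite K (LinearMap.range (θ - 1)))
    (hm : finrank K (LinearMap.range (θ - 1)) ≤ m) :
    Module.Finite K (LinearMap.range (u - 1)) ∧ finrank K (LinearMap.range (u - 1)) ≤ 2 * m := by
  have hle : LinearMap.range (u - 1) ≤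
      (LinearMap.range (θ - 1)).map b ⊔ LinearMap.range (θ - 1) := by
    rintro y ⟨x, rfl⟩
    obtain ⟨z, rfl⟩ := hθ x
    have h1 : u (θ z) = b (θ (a z)) := by
      have := LinearMap.congr_fun hu z
      exact this
    have h2 : b (a z) = z := LinearMap.congr_fun hab z
    have h3 : (u - 1) (θ z) = b ((θ - 1) (a z)) - (θ - 1) z := by
      rw [LinearMap.sub_apply, LinearMap.sub_apply, LinearMap.sub_apply, map_sub, h1,
        Module.End.one_apply, Module.End.one_apply, Module.End.one_apply, h2]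
      abel
    rw [h3]
    refine Submodule.sub_mem _ ?_ ?_
    · exact Submodule.mem_sup_left ⟨_, ⟨a z, rfl⟩, rfl⟩
    · exact Submodule.mem_sup_right ⟨z, rfl⟩
  have hfin2 : Module.Finite K ↥((LinearMap.range (θ - 1)).map b ⊔ LinearMap.range (θ - 1)) :=
    inferInstance
  refine ⟨Submodule.finiteDimensional_of_le hle, (Submodule.finrank_mono hle).trans ?_⟩
  refine (Submodule.finrank_add_le_finrank_add_finrank _ _).trans ?_
  have h4 := Submodule.finrank_map_le b (LinearMap.range (θ - 1))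
  omega

end lin

section L

variable (p : ℕ) [Fact p.Prime] (L : Subgroup (GG (SS p)))

/-- the functions in `L` -/
def VV : AddSubgroup (Lam →₀ ZMod p) where
  carrier := {a | inn (SS p) ⟨a, 0⟩ ∈ L}
  add_mem' := by
    intro a b ha hb
    show inn (SS p) ⟨a + b, 0⟩ ∈ L
    rw [← mulA, map_mul]
    exact L.mul_mem ha hb
  zero_mem' := by
    show inn (SS p) 1 ∈ L
    rw [map_one]
    exact L.one_mem
  neg_mem' := by
    intro a ha
    show inn (SS p) ⟨-a, 0⟩ ∈ L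
    rw [← invA, map_inv]
    exact L.inv_mem ha

/-- the projection of `L ∩ N` to `Lam` -/
def LB : AddSubgroup Lam where
  carrier := {l | ∃ a, inn (SS p) ⟨a, l⟩ ∈ L}
  add_mem' := by
    rintro l m ⟨a, ha⟩ ⟨b, hb⟩
    have := L.mul_mem ha hb
    rw [← map_mul] at this
    exact ⟨_, this⟩
  zero_mem' := ⟨0, by
    show inn (SS p) 1 ∈ L
    rw [map_one]
    exact L.one_mem⟩
  neg_mem' := by
    rintro l ⟨a, ha⟩
    have := L.inv_mem ha
    rw [← map_inv] at this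
    exact ⟨_, this⟩

variable {p L}

lemma mem_VV {a : Lam →₀ ZMod p} : a ∈ VV p L ↔ inn (SS p) ⟨a, 0⟩ ∈ L := Iff.rfl

lemma mem_LB {l : Lam} : l ∈ LB p L ↔ ∃ a, inn (SS p) ⟨a, l⟩ ∈ L := Iff.rfl

lemma VV_trl {l : Lam} (hl : l ∈ LB p L) {a : Lam →₀ ZMod p} (ha : a ∈ VV p L) :
    trl p l a ∈ VV p L := by
  obtain ⟨c, hc⟩ := hl
  rw [mem_VV, ← conj_A p ⟨c, l⟩ a, map_mul, map_mul, map_inv]
  exact L.mul_mem (L.mul_mem hc ha) (L.inv_mem hc)

/-- conjugation by `g` on functions -/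
def th (p j : ℕ) (l : Lam) : (Lam →₀ ZMod p) →+ (Lam →₀ ZMod p) :=
  (trl p (-l)).toAddMonoidHom.comp (shAj p j).toAddMonoidHom

lemma th_apply (p j : ℕ) (l : Lam) (a : Lam →₀ ZMod p) :
    th p j l a = trl p (-l) (shAj p j a) := rfl

lemma th_surj (p j : ℕ) (l : Lam) : Function.Surjective (th p j l) :=
  (trl p (-l)).surjective.comp (shAj p j).surjective

lemma th_trl (p j : ℕ) (l m : Lam) (a : Lam →₀ ZMod p) :
    th p j l (trl p m a) = trl p (shLj j m) (th p j l a) := by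
  rw [th_apply, th_apply, shAj_trl, ← trl_add, ← trl_add, add_comm]

lemma conj_th (n : NN p) (j : ℕ) (a : Lam →₀ ZMod p) :
    ((inn (SS p) n)⁻¹ * tt (SS p) ^ j) * inn (SS p) ⟨a, 0⟩ *
      ((inn (SS p) n)⁻¹ * tt (SS p) ^ j)⁻¹ = inn (SS p) ⟨th p j n.l a, 0⟩ := by
  rw [conj_g]
  congr 1
  show n⁻¹ * (shN p ^ j) ⟨a, 0⟩ * n = _
  rw [shN_pow]
  show n⁻¹ * ⟨shAj p j a, shLj j 0⟩ * n = _
  rw [map_zero, conj_A', th_apply]

lemma conj_l (n x : NN p) (j : ℕ) : (n⁻¹ * (shN p ^ j) x * n).l = shLj j x.l := by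
  rw [shN_pow, NN.mul_l, NN.mul_l, NN.inv_l]
  show -n.l + shLj j x.l + n.l = shLj j x.l
  abel

lemma VV_th {n : NN p} {j : ℕ} (hg : (inn (SS p) n)⁻¹ * tt (SS p) ^ j ∈ L)
    {a : Lam →₀ ZMod p} (ha : a ∈ VV p L) : th p j n.l a ∈ VV p L := by
  rw [mem_VV, ← conj_th]
  exact L.mul_mem (L.mul_mem hg ha) (L.inv_mem hg)

lemma LB_sh {n : NN p} {j : ℕ} (hg : (inn (SS p) n)⁻¹ * tt (SS p) ^ j ∈ L)
    {l : Lam} (hl : l ∈ LB p L) : shLj j l ∈ LB p L := by
  obtain ⟨c, hc⟩ := hl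
  have h1 := L.mul_mem (L.mul_mem hg hc) (L.inv_mem hg)
  rw [conj_g] at h1
  have h2 := conj_l n ⟨c, l⟩ j
  rw [mem_LB]
  refine ⟨(n⁻¹ * (shN p ^ j) ⟨c, l⟩ * n).a, ?_⟩
  have h3 : (⟨(n⁻¹ * (shN p ^ j) ⟨c, l⟩ * n).a, shLj j l⟩ : NN p) =
      n⁻¹ * (shN p ^ j) ⟨c, l⟩ * n := by
    ext1
    · rfl
    · exact h2.symm
  rw [h3]
  exact h1

/-- the image of the commutator map, first condition -/
lemma cond_A {n : NN p} {j m : ℕ}
    (h : ∀ s : Fin (m + 1) → NN p, (∀ k, s k ∈ SA p) → ∃ k k', k ≠ k' ∧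
        ((inn (SS p) n)⁻¹ * tt (SS p) ^ j) * inn (SS p) (s k * (s k')⁻¹) *
          ((inn (SS p) n)⁻¹ * tt (SS p) ^ j)⁻¹ * (inn (SS p) (s k * (s k')⁻¹))⁻¹ ∈ L)
    (s : Fin (m + 1) → (Lam →₀ ZMod p)) :
    ∃ k k', k ≠ k' ∧ th p j n.l (s k - s k') - (s k - s k') ∈ VV p L := by
  obtain ⟨k, k', hk, h1⟩ := h (fun k => ⟨s k, 0⟩) (fun k => rfl)
  refine ⟨k, k', hk, ?_⟩
  rw [invA, mulA, conj_th, ← map_inv, ← map_mul, invA, mulA] at h1
  rw [mem_VV, sub_eq_add_neg, sub_eq_add_neg]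
  exact h1

/-- the image of the commutator map, second condition -/
lemma cond_L {n : NN p} {j m : ℕ}
    (h : ∀ s : Fin (m + 1) → NN p, (∀ k, s k ∈ SL p) → ∃ k k', k ≠ k' ∧ ∃ a ∈ SA p,
        inn (SS p) a *
          (((inn (SS p) n)⁻¹ * tt (SS p) ^ j) * inn (SS p) (s k * (s k')⁻¹) *
            ((inn (SS p) n)⁻¹ * tt (SS p) ^ j)⁻¹ * (inn (SS p) (s k * (s k')⁻¹))⁻¹) ∈ L)
    (s : Fin (m + 1) → Lam) :
    ∃ k k', k ≠ k' ∧ sm j (s k - s k') ∈ LB p L := by
  obtain ⟨k, k', hk, a, ha, h1⟩ := h (fun k => ⟨0, s k⟩) (fun k => rfl)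
  refine ⟨k, k', hk, ?_⟩
  rw [conj_g, ← map_inv, ← map_mul, ← map_mul] at h1
  have ha' : a.l = 0 := ha
  have h2 : ∀ (y : NN p) (z : Lam), inn (SS p) y ∈ L → y.l = z → z ∈ LB p L := by
    intro y z hy hyl
    rw [mem_LB, ← hyl]
    exact ⟨y.a, hy⟩
  refine h2 _ _ h1 ?_
  have h3 : (n⁻¹ * ((SS p).σ ^ j) ((⟨0, s k⟩ : NN p) * (⟨0, s k'⟩ : NN p)⁻¹) * n).l =
      shLj j ((⟨0, s k⟩ : NN p) * (⟨0, s k'⟩ : NN p)⁻¹).l := conj_l n _ j
  rw [NN.mul_l, NN.mul_l _ _ ((⟨0, s k⟩ : NN p) * (⟨0, s k'⟩ : NN p)⁻¹)⁻¹, NN.inv_l, h3, ha',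
    sm_apply, NN.mul_l, NN.inv_l]
  show 0 + (shLj j (s k + -s k') + -(s k + -s k')) = shLj j (s k - s k') - (s k - s k')
  rw [sub_eq_add_neg, sub_eq_add_neg, zero_add]

end L

section fin

variable {p : ℕ} [Fact p.Prime] {L : Subgroup (GG (SS p))}

lemma few {α : Type*} (R : Set α) (m : ℕ)
    (h : ∀ f : Fin (m + 1) → α, (∀ k, f k ∈ R) → ∃ k k', k ≠ k' ∧ f k = f k') :
    R.Finite ∧ R.ncard ≤ m := by
  have key : R.encard ≤ m := by
    by_contra hcon
    push Not at hcon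
    have h1 : ((m + 1 : ℕ) : ℕ∞) ≤ R.encard := by
      push_cast
      exact Order.add_one_le_of_lt hcon
    obtain ⟨t, ht, htc⟩ := Set.exists_subset_encard_eq h1
    have hfin : t.Finite := Set.finite_of_encard_eq_coe htc
    have := hfin.to_subtype
    have hcard : Nat.card t = m + 1 := by
      rw [Nat.card_coe_set_eq, Set.ncard_def, htc]; rfl
    have e : Fin (m + 1) ≃ t := (Finite.equivFinOfCardEq hcard).symm
    obtain ⟨k, k', hne, heq⟩ := h (fun k => (e k : α)) (fun k => ht (e k).2)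
    exact hne (e.injective (Subtype.ext heq))
  have hfin : R.Finite := Set.encard_lt_top_iff.1 (lt_of_le_of_lt key (by simp))
  refine ⟨hfin, ?_⟩
  have := hfin.cast_ncard_eq
  rw [← this] at key
  exact_mod_cast key

lemma LB_index {j m : ℕ} (hj : 0 < j)
    (h : ∀ s : Fin (m + 1) → Lam, ∃ k k', k ≠ k' ∧ sm j (s k - s k') ∈ LB p L) :
    (LB p L).index ≠ 0 ∧ (LB p L).index ≤ m * 2 ^ j := by
  let ψ : Lam →+ Lam ⧸ LB p L := (QuotientAddGroup.mk' (LB p L)).comp (sm j)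
  have hψ : ∀ l, ψ l = 0 ↔ sm j l ∈ LB p L := fun l => by
    show (QuotientAddGroup.mk (sm j l) : Lam ⧸ LB p L) = 0 ↔ _
    exact QuotientAddGroup.eq_zero_iff _
  obtain ⟨h1, h2⟩ := few (ψ.range : Set (Lam ⧸ LB p L)) m (by
    intro f hf
    choose s hs using hf
    obtain ⟨k, k', hk, hm⟩ := h s
    refine ⟨k, k', hk, ?_⟩
    rw [← hs k, ← hs k', ← sub_eq_zero, ← map_sub, hψ]
    exact hm)
  have h3 : ψ.ker.index = (ψ.range : Set (Lam ⧸ LB p L)).ncard := by
    rw [AddSubgroup.index_ker]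
    rfl
  have h4 : ψ.ker.index ≠ 0 := by
    rw [h3]
    exact (Set.ncard_pos h1).2 ⟨0, ψ.range.zero_mem⟩ |>.ne'
  obtain ⟨h5, h6⟩ := map_index j hj ψ.ker m h4 (h3 ▸ h2)
  have h7 : ψ.ker.map (sm j) ≤ LB p L := by
    rintro _ ⟨l, hl, rfl⟩
    exact (hψ l).1 hl
  have h8 := AddSubgroup.index_dvd_of_le h7
  refine ⟨fun h => h5 (by rw [h] at h8; exact Nat.eq_zero_of_zero_dvd h8), ?_⟩
  exact (Nat.le_of_dvd (Nat.pos_of_ne_zero h5) h8).trans h6

lemma rng_bound {A : Type} [AddCommGroup A] [Module (ZMod p) A] (W : Submodule (ZMod p) A)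
    (θ : A →ₗ[ZMod p] A) (hθ : W ≤ W.comap θ) (m : ℕ)
    (h : ∀ s : Fin (m + 1) → A, ∃ k k', k ≠ k' ∧ θ (s k - s k') - (s k - s k') ∈ W) :
    Module.Finite (ZMod p) (LinearMap.range (W.mapQ W θ hθ - 1)) ∧
      finrank (ZMod p) (LinearMap.range (W.mapQ W θ hθ - 1)) ≤ m := by
  have hmk : ∀ a, (W.mapQ W θ hθ - 1) (W.mkQ a) = W.mkQ (θ a - a) := by
    intro a
    rw [LinearMap.sub_apply, Module.End.one_apply, map_sub]
    rfl
  obtain ⟨h1, h2⟩ := few (LinearMap.range (W.mapQ W θ hθ - 1) : Set (A ⧸ W)) m (by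
    intro f hf
    choose x hx using hf
    choose s hs using fun k => W.mkQ_surjective (x k)
    obtain ⟨k, k', hk, hm⟩ := h s
    refine ⟨k, k', hk, ?_⟩
    rw [← hx k, ← hx k', ← hs k, ← hs k', ← sub_eq_zero, ← map_sub, ← map_sub, hmk]
    rw [Submodule.mkQ_apply, Submodule.Quotient.mk_eq_zero]
    exact hm)
  have hfin : Finite (LinearMap.range (W.mapQ W θ hθ - 1)) := h1.to_subtype
  have hmf : Module.Finite (ZMod p) (LinearMap.range (W.mapQ W θ hθ - 1)) :=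
    Module.Finite.of_finite
  refine ⟨hmf, ?_⟩
  have h3 : Nat.card (LinearMap.range (W.mapQ W θ hθ - 1)) =
      p ^ finrank (ZMod p) (LinearMap.range (W.mapQ W θ hθ - 1)) := by
    rw [Module.natCard_eq_pow_finrank (K := ZMod p), Nat.card_zmod]
  have h4 : Nat.card (LinearMap.range (W.mapQ W θ hθ - 1)) ≤ m := h2
  have h5 := Nat.lt_pow_self (n := finrank (ZMod p) (LinearMap.range (W.mapQ W θ hθ - 1)))
    (Fact.out : p.Prime).one_lt
  omega

/-- the functions in `L` as a subspace -/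
def VS (p : ℕ) [Fact p.Prime] (L : Subgroup (GG (SS p))) : Submodule (ZMod p) (Lam →₀ ZMod p) :=
  AddSubgroup.toZModSubmodule p (VV p L)

lemma mem_VS {a : Lam →₀ ZMod p} : a ∈ VS p L ↔ a ∈ VV p L := Iff.rfl

/-- translations on the quotient -/
def TM (l : LB p L) : ((Lam →₀ ZMod p) ⧸ VS p L) →ₗ[ZMod p] ((Lam →₀ ZMod p) ⧸ VS p L) :=
  (VS p L).mapQ (VS p L) ((trl p l).toAddMonoidHom.toZModLinearMap p) fun _ ha => VV_trl l.2 ha

lemma TM_mk (l : LB p L) (a : Lam →₀ ZMod p) :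
    TM l ((VS p L).mkQ a) = (VS p L).mkQ (trl p l a) := rfl

/-- the conjugation by `g` on the quotient -/
def TH {n : NN p} {j : ℕ} (hg : (inn (SS p) n)⁻¹ * tt (SS p) ^ j ∈ L) :
    ((Lam →₀ ZMod p) ⧸ VS p L) →ₗ[ZMod p] ((Lam →₀ ZMod p) ⧸ VS p L) :=
  (VS p L).mapQ (VS p L) ((th p j n.l).toZModLinearMap p) fun _ ha => VV_th hg ha

lemma TH_mk {n : NN p} {j : ℕ} (hg : (inn (SS p) n)⁻¹ * tt (SS p) ^ j ∈ L)
    (a : Lam →₀ ZMod p) : TH hg ((VS p L).mkQ a) = (VS p L).mkQ (th p j n.l a) := rfl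

end fin

lemma finite_sup {E : Type*} [CommGroup E] (D K : Subgroup E) [Finite D] [Finite K] :
    Finite ↥(D ⊔ K) := by
  refine Finite.of_surjective (fun x : D × K => (⟨(x.1 : E) * x.2,
    Subgroup.mul_mem_sup x.1.2 x.2.2⟩ : ↥(D ⊔ K))) ?_
  rintro ⟨x, hx⟩
  obtain ⟨y, hy, z, hz, rfl⟩ := Subgroup.mem_sup.1 hx
  exact ⟨(⟨y, hy⟩, ⟨z, hz⟩), rfl⟩

lemma finite_zp {E : Type*} [CommGroup E] (hE : ∀ u : E, u ^ 2 = 1) (u : E) :
    Finite (Subgroup.zpowers u) := by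
  rw [← SetLike.coe_sort_coe, Set.finite_coe_iff, finite_zpowers]
  exact isOfFinOrder_iff_pow_eq_one.2 ⟨2, by norm_num, hE u⟩

/-- the statement `S_CLM` for infinite groups -/
lemma clm_inf (h : S_CLM) (p : ℕ) [Fact p.Prime] (hp : p ≠ 2) (M : Type) [AddCommGroup M]
    [Module (ZMod p) M] (E : Type) [CommGroup E] (β : E →* (M →ₗ[ZMod p] M))
    (hE : ∀ u : E, u ^ 2 = 1) (c : ℕ)
    (hc : ∀ u, Module.Finite (ZMod p) (LinearMap.range (β u - 1)) ∧
      Module.finrank (ZMod p) (LinearMap.range (β u - 1)) ≤ c) :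
    Module.Finite (ZMod p) (⨆ u, LinearMap.range (β u - 1) : Submodule (ZMod p) M) ∧
      Module.finrank (ZMod p) (⨆ u, LinearMap.range (β u - 1) : Submodule (ZMod p) M) ≤ 2 * c := by
  let S : Subgroup E → Submodule (ZMod p) M := fun D => ⨆ u : D, LinearMap.range (β u - 1)
  have hS : ∀ D : Subgroup E, Finite D → Module.Finite (ZMod p) (S D) ∧ finrank (ZMod p) (S D) ≤ 2 * c := by
    intro D hD
    exact h p hp M D (β.comp D.subtype) (fun u => Subtype.ext (hE u)) c (fun u => hc u)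
  have hmono : ∀ D D' : Subgroup E, D ≤ D' → S D ≤ S D' := by
    intro D D' hDD
    refine iSup_le fun u => ?_
    exact le_iSup (fun u : D' => LinearMap.range (β u - 1)) ⟨u, hDD u.2⟩
  obtain ⟨D, hD, hmax⟩ : ∃ D : Subgroup E, Finite D ∧ ∀ D' : Subgroup E, Finite D' →
      finrank (ZMod p) (S D') ≤ finrank (ZMod p) (S D) := by
    have hne : {n | ∃ D : Subgroup E, Finite D ∧ finrank (ZMod p) (S D) = n}.Nonempty :=
      ⟨_, ⊥, inferInstance, rfl⟩
    have hbd : BddAbove {n | ∃ D : Subgroup E, Finite D ∧ finrank (ZMod p) (S D) = n} := by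
      refine ⟨2 * c, ?_⟩
      rintro n ⟨D, hD, rfl⟩
      exact (hS D hD).2
    obtain ⟨D, hD, hDn⟩ := Nat.sSup_mem hne hbd
    refine ⟨D, hD, fun D' hD' => ?_⟩
    rw [hDn]
    exact le_csSup hbd ⟨D', hD', rfl⟩
  have hle : (⨆ u, LinearMap.range (β u - 1) : Submodule (ZMod p) M) ≤ S D := by
    refine iSup_le fun u => ?_
    have hz := finite_zp hE u
    have hfin := finite_sup D (Subgroup.zpowers u)
    have h1 := hmono D (D ⊔ Subgroup.zpowers u) le_sup_left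
    have := (hS _ hfin).1
    have h2 : S D = S (D ⊔ Subgroup.zpowers u) := Submodule.eq_of_le_of_finrank_le h1 (hmax _ hfin)
    rw [h2]
    exact le_iSup (fun u : ↥(D ⊔ Subgroup.zpowers u) => LinearMap.range (β u - 1))
      ⟨u, (le_sup_right : Subgroup.zpowers u ≤ D ⊔ Subgroup.zpowers u)
        (Subgroup.mem_zpowers u)⟩
  have := (hS D hD).1
  exact ⟨Submodule.finiteDimensional_of_le hle, (Submodule.finrank_mono hle).trans (hS D hD).2⟩

section final

variable {p : ℕ} [Fact p.Prime] {L : Subgroup (GG (SS p))}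

lemma lam_two (l : Lam) : l + l = 0 := by
  ext i
  rw [Finsupp.add_apply]
  exact CharTwo.add_self_eq_zero _

theorem M_card (hCLM : S_CLM) (hp : p ≠ 2) {j m : ℕ} (hj : 0 < j) {n : NN p}
    (hg : (inn (SS p) n)⁻¹ * tt (SS p) ^ j ∈ L)
    (hA : ∀ s : Fin (m + 1) → (Lam →₀ ZMod p),
      ∃ k k', k ≠ k' ∧ th p j n.l (s k - s k') - (s k - s k') ∈ VV p L)
    (hL : ∀ s : Fin (m + 1) → Lam, ∃ k k', k ≠ k' ∧ sm j (s k - s k') ∈ LB p L) :
    Finite ((Lam →₀ ZMod p) ⧸ VS p L) ∧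
      Nat.card ((Lam →₀ ZMod p) ⧸ VS p L) ≤ p ^ (2 * (2 * m) + m * 2 ^ j * 2 ^ j) := by
  obtain ⟨hi1, hi2⟩ := LB_index hj hL
  obtain ⟨L', hL'⟩ : ∃ L' : AddSubgroup Lam, L' = (LB p L).map (sm j) := ⟨_, rfl⟩
  obtain ⟨hi3, hi4⟩ := map_index j hj (LB p L) _ hi1 hi2
  rw [← hL'] at hi3 hi4
  have hle : L' ≤ LB p L := by
    rw [hL']
    rintro _ ⟨l, hl, rfl⟩
    rw [sm_apply]
    exact (LB p L).sub_mem (LB_sh hg hl) hl
  have hmem : ∀ x ∈ L', ∃ l ∈ LB p L, sm j l = x := by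
    intro x hx
    rw [hL'] at hx
    exact hx
  -- the module
  have hext : ∀ f f' : ((Lam →₀ ZMod p) ⧸ VS p L) →ₗ[ZMod p] ((Lam →₀ ZMod p) ⧸ VS p L),
      (∀ a, f ((VS p L).mkQ a) = f' ((VS p L).mkQ a)) → f = f' := by
    intro f f' h
    refine LinearMap.ext fun x => ?_
    obtain ⟨a, rfl⟩ := (VS p L).mkQ_surjective x
    exact h a
  let β : Multiplicative L' →*
      (((Lam →₀ ZMod p) ⧸ VS p L) →ₗ[ZMod p] ((Lam →₀ ZMod p) ⧸ VS p L)) :=
    { toFun := fun u => TM ⟨(Multiplicative.toAdd u : L'), hle (Multiplicative.toAdd u).2⟩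
      map_one' := by
        apply hext
        intro a
        show (VS p L).mkQ (trl p 0 a) = (VS p L).mkQ a
        rw [trl_zero]
      map_mul' := by
        intro u v
        apply hext
        intro a
        show (VS p L).mkQ (trl p ((Multiplicative.toAdd u : L') + (Multiplicative.toAdd v : L')) a)
          = (VS p L).mkQ (trl p (Multiplicative.toAdd u : L')
            (trl p (Multiplicative.toAdd v : L') a))
        rw [trl_add] }
  have hβ : ∀ (u : L') (a : Lam →₀ ZMod p),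
      β (Multiplicative.ofAdd u) ((VS p L).mkQ a) = (VS p L).mkQ (trl p u a) := fun u a => rfl
  obtain ⟨ht1, ht2⟩ := rng_bound (VS p L) ((th p j n.l).toZModLinearMap p)
    (fun _ ha => VV_th hg ha) m hA
  have hthsurj : Function.Surjective (TH hg) := by
    intro x
    obtain ⟨a, rfl⟩ := (VS p L).mkQ_surjective x
    obtain ⟨b, rfl⟩ := th_surj p j n.l a
    exact ⟨(VS p L).mkQ b, rfl⟩
  have hE : ∀ u : Multiplicative L', u ^ 2 = 1 := by
    intro u
    rw [pow_two]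
    show Multiplicative.ofAdd (Multiplicative.toAdd u + Multiplicative.toAdd u) =
      Multiplicative.ofAdd 0
    congr 1
    exact Subtype.ext (lam_two _)
  have hc : ∀ u : Multiplicative L', Module.Finite (ZMod p) (LinearMap.range (β u - 1)) ∧
      finrank (ZMod p) (LinearMap.range (β u - 1)) ≤ 2 * m := by
    intro u
    obtain ⟨u, rfl⟩ := Multiplicative.ofAdd.surjective u
    obtain ⟨l, hl, hlu⟩ := hmem u u.2
    refine opb (TH hg) (TM ⟨l, hl⟩) (TM (-⟨l, hl⟩)) (β (Multiplicative.ofAdd u)) m hthsurj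
      ?_ ?_ ht1 ht2
    · apply hext
      intro a
      show (VS p L).mkQ (trl p (-l) (trl p l a)) = (VS p L).mkQ a
      rw [← trl_add, neg_add_cancel, trl_zero]
    · apply hext
      intro a
      show (VS p L).mkQ (trl p u (th p j n.l a)) =
        (VS p L).mkQ (trl p (-l) (th p j n.l (trl p l a)))
      rw [th_trl, ← trl_add, ← hlu, sm_apply]
      congr 3
      abel
  obtain ⟨hv1, hv2⟩ := clm_inf hCLM p hp _ (Multiplicative L') β hE (2 * m) hc
  obtain ⟨V', hV'⟩ : ∃ V' : Submodule (ZMod p) ((Lam →₀ ZMod p) ⧸ VS p L),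
    V' = ⨆ u, LinearMap.range (β u - 1) := ⟨_, rfl⟩
  rw [← hV'] at hv1 hv2
  -- the quotient by `V'`
  have hfq : Finite (Lam ⧸ L') := by
    have : L'.FiniteIndex := ⟨hi3⟩
    exact AddSubgroup.finite_quotient_of_finiteIndex
  have := Fintype.ofFinite (Lam ⧸ L')
  let f : Lam ⧸ L' → (((Lam →₀ ZMod p) ⧸ VS p L) ⧸ V') := fun q =>
    V'.mkQ ((VS p L).mkQ (Finsupp.single (Quotient.out q) 1))
  have hf : ∀ c : Lam, V'.mkQ ((VS p L).mkQ (Finsupp.single c 1)) = f (QuotientAddGroup.mk c) := by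
    intro c
    obtain ⟨u, hu⟩ := QuotientAddGroup.mk_out_eq_add L' c
    show _ = V'.mkQ ((VS p L).mkQ (Finsupp.single
      (Quotient.out (QuotientAddGroup.mk c : Lam ⧸ L')) 1))
    rw [hu, ← sub_eq_zero, ← map_sub, Submodule.mkQ_apply, Submodule.Quotient.mk_eq_zero,
      ← neg_mem_iff, neg_sub]
    have h1 : (VS p L).mkQ (Finsupp.single (c + (u : Lam)) 1) - (VS p L).mkQ (Finsupp.single c 1)
        = (β (Multiplicative.ofAdd u) - 1) ((VS p L).mkQ (Finsupp.single c 1)) := by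
      rw [LinearMap.sub_apply, hβ, trl_single, add_comm c (u : Lam)]
      rfl
    rw [h1, hV']
    exact Submodule.mem_iSup_of_mem (Multiplicative.ofAdd u) ⟨_, rfl⟩
  have hspan : Submodule.span (ZMod p) (Set.range f) = ⊤ := by
    rw [eq_top_iff]
    intro x _
    obtain ⟨y, rfl⟩ := V'.mkQ_surjective x
    obtain ⟨a, rfl⟩ := (VS p L).mkQ_surjective y
    induction a using Finsupp.induction_linear with
    | zero => simp
    | add a b ha hb =>
      rw [map_add, map_add]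
      exact Submodule.add_mem _ (ha trivial) (hb trivial)
    | single c r =>
      have h1 : (Finsupp.single c r : Lam →₀ ZMod p) = r • Finsupp.single c 1 := by
        rw [Finsupp.smul_single, smul_eq_mul, mul_one]
      rw [h1, map_smul, map_smul, hf]
      exact Submodule.smul_mem _ _ (Submodule.subset_span ⟨_, rfl⟩)
  have hmf : Module.Finite (ZMod p) (((Lam →₀ ZMod p) ⧸ VS p L) ⧸ V') := by
    refine ⟨⟨(Set.finite_range f).toFinset, ?_⟩⟩
    rw [Set.Finite.coe_toFinset, hspan]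
  have hfr : finrank (ZMod p) (((Lam →₀ ZMod p) ⧸ VS p L) ⧸ V') ≤ m * 2 ^ j * 2 ^ j := by
    have h1 := finrank_range_le_card (R := ZMod p) f
    unfold Set.finrank at h1
    rw [hspan, finrank_top] at h1
    refine h1.trans ?_
    rw [← Nat.card_eq_fintype_card]
    exact hi4
  have hMf : Module.Finite (ZMod p) ((Lam →₀ ZMod p) ⧸ VS p L) :=
    Module.Finite.of_submodule_quotient V'
  have hM : finrank (ZMod p) ((Lam →₀ ZMod p) ⧸ VS p L) ≤
      2 * (2 * m) + m * 2 ^ j * 2 ^ j := by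
    have h1 := Submodule.finrank_quotient_add_finrank V'
    omega
  refine ⟨Module.finite_of_finite (ZMod p), ?_⟩
  rw [Module.natCard_eq_pow_finrank (K := ZMod p), Nat.card_zmod]
  exact Nat.pow_le_pow_right (Fact.out : p.Prime).pos hM

lemma right_g {N : Type} [Group N] (S : WD N) (n : N) (j : ℕ) (a : ℤ) :
    (((inn S n)⁻¹ * tt S ^ j) ^ a : GG S).right = Multiplicative.ofAdd ((j : ℤ) * a) := by
  have h1 : (((inn S n)⁻¹ * tt S ^ j) ^ a : GG S).right =
      (SemidirectProduct.rightHom (((inn S n)⁻¹ * tt S ^ j) ^ a : GG S)) := rfl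
  rw [h1, map_zpow, map_mul, map_inv, map_pow]
  have h2 : SemidirectProduct.rightHom (inn S n) = 1 := SemidirectProduct.rightHom_inl n
  have h3 : SemidirectProduct.rightHom (tt S) = Multiplicative.ofAdd 1 :=
    SemidirectProduct.rightHom_inr _
  rw [h2, h3, inv_one, one_mul, ← ofAdd_nsmul, ← ofAdd_zsmul]
  congr 1
  simp [mul_comm]

theorem cosets {j : ℕ} (hj : 0 < j) {n : NN p}
    (hg : (inn (SS p) n)⁻¹ * tt (SS p) ^ j ∈ L) :
    ∃ F : Fin j × (Lam ⧸ LB p L) × ((Lam →₀ ZMod p) ⧸ VS p L) → GG (SS p) ⧸ L,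
      Function.Surjective F := by
  obtain ⟨r, hr⟩ : ∃ r : (Lam ⧸ LB p L) → Lam, ∀ q, QuotientAddGroup.mk (r q) = q :=
    ⟨Quotient.out, fun q => Quotient.out_eq q⟩
  obtain ⟨r', hr'⟩ : ∃ r : ((Lam →₀ ZMod p) ⧸ VS p L) → (Lam →₀ ZMod p),
      ∀ q, (VS p L).mkQ (r q) = q :=
    ⟨Function.surjInv (VS p L).mkQ_surjective, Function.surjInv_eq (VS p L).mkQ_surjective⟩
  refine ⟨fun x => QuotientGroup.mk (tt (SS p) ^ (x.1 : ℕ) * inn (SS p) ⟨0, r x.2.1⟩ *
    inn (SS p) ⟨r' x.2.2, 0⟩), ?_⟩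
  intro y
  obtain ⟨x, rfl⟩ := QuotientGroup.mk_surjective y
  obtain ⟨k, hk⟩ := Multiplicative.ofAdd.surjective x.right
  have hj' : (0 : ℤ) < j := by exact_mod_cast hj
  have hb0 := Int.emod_nonneg k hj'.ne'
  have hb1 := Int.emod_lt_of_pos k hj'
  obtain ⟨b, hb⟩ : ∃ b : ℕ, (b : ℤ) = k % j := ⟨(k % j).toNat, Int.toNat_of_nonneg hb0⟩
  have hbj : b < j := by omega
  -- the element of `N`
  obtain ⟨n2, hn2⟩ : ∃ n2 : NN p, (tt (SS p) ^ b)⁻¹ * x *
      ((inn (SS p) n)⁻¹ * tt (SS p) ^ j) ^ (-(k / j)) = inn (SS p) n2 := by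
    refine ⟨((tt (SS p) ^ b)⁻¹ * x *
      ((inn (SS p) n)⁻¹ * tt (SS p) ^ j) ^ (-(k / j)) : GG (SS p)).left, ?_⟩
    refine SemidirectProduct.ext rfl ?_
    rw [SemidirectProduct.right_inl]
    have h1 : ((tt (SS p) ^ b)⁻¹ * x * ((inn (SS p) n)⁻¹ * tt (SS p) ^ j) ^ (-(k / j)) :
        GG (SS p)).right = ((tt (SS p) ^ b)⁻¹ : GG (SS p)).right * x.right *
          (((inn (SS p) n)⁻¹ * tt (SS p) ^ j) ^ (-(k / j)) : GG (SS p)).right := rfl
    have h2 : ((tt (SS p) ^ b)⁻¹ : GG (SS p)).right = Multiplicative.ofAdd (-(b : ℤ)) := by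
      have h3 : ((tt (SS p) ^ b)⁻¹ : GG (SS p)).right =
        SemidirectProduct.rightHom ((tt (SS p) ^ b)⁻¹ : GG (SS p)) := rfl
      have h4 : SemidirectProduct.rightHom (tt (SS p)) = Multiplicative.ofAdd 1 :=
        SemidirectProduct.rightHom_inr _
      rw [h3, map_inv, map_pow, h4, ← ofAdd_nsmul, ← ofAdd_neg]
      congr 1
      simp
    rw [h1, h2, right_g, ← hk, ← ofAdd_add, ← ofAdd_add, hb]
    show Multiplicative.ofAdd _ = Multiplicative.ofAdd 0
    congr 1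
    have := Int.emod_add_mul_ediv k j
    linarith
  -- the part in `Lam`
  obtain ⟨a', ha'⟩ : ∃ a', inn (SS p) ⟨a', -r (QuotientAddGroup.mk n2.l) + n2.l⟩ ∈ L := by
    have h1 := hr (QuotientAddGroup.mk n2.l : Lam ⧸ LB p L)
    rw [QuotientAddGroup.eq] at h1
    exact h1
  obtain ⟨l0, hl0⟩ : ∃ l0, l0 = r (QuotientAddGroup.mk n2.l) := ⟨_, rfl⟩
  rw [← hl0] at ha'
  obtain ⟨c, hc⟩ : ∃ c : Lam →₀ ZMod p,
      (⟨0, l0⟩ : NN p)⁻¹ * n2 * (⟨a', -l0 + n2.l⟩ : NN p)⁻¹ = ⟨c, 0⟩ := by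
    refine ⟨((⟨0, l0⟩ : NN p)⁻¹ * n2 * (⟨a', -l0 + n2.l⟩ : NN p)⁻¹).a, ?_⟩
    ext1
    · rfl
    · rw [NN.mul_l, NN.mul_l, NN.inv_l, NN.inv_l]
      show -l0 + n2.l + -(-l0 + n2.l) = 0
      abel
  refine ⟨(⟨b, hbj⟩, QuotientAddGroup.mk n2.l, (VS p L).mkQ c), ?_⟩
  have hα : -r' ((VS p L).mkQ c) + c ∈ VV p L := by
    have h1 := hr' ((VS p L).mkQ c)
    rw [← sub_eq_zero, ← map_sub, Submodule.mkQ_apply, Submodule.Quotient.mk_eq_zero] at h1
    rw [← neg_mem_iff]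
    have h2 : -(-r' ((VS p L).mkQ c) + c) = r' ((VS p L).mkQ c) - c := by abel
    rw [h2]
    exact h1
  rw [QuotientGroup.eq]
  show (tt (SS p) ^ b * inn (SS p) ⟨0, r (QuotientAddGroup.mk n2.l)⟩ *
    inn (SS p) ⟨r' ((VS p L).mkQ c), 0⟩)⁻¹ * x ∈ L
  rw [← hl0]
  have e1 : x = tt (SS p) ^ b * inn (SS p) n2 *
      (((inn (SS p) n)⁻¹ * tt (SS p) ^ j) ^ (-(k / j)))⁻¹ := by
    rw [← hn2]; group
  have e2 : n2 = ⟨0, l0⟩ * ⟨c, 0⟩ * ⟨a', -l0 + n2.l⟩ := by
    rw [← hc]; group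
  have e3 : (tt (SS p) ^ b * inn (SS p) ⟨0, l0⟩ *
    inn (SS p) ⟨r' ((VS p L).mkQ c), 0⟩)⁻¹ * x =
      inn (SS p) ⟨-r' ((VS p L).mkQ c) + c, 0⟩ * inn (SS p) ⟨a', -l0 + n2.l⟩ *
        (((inn (SS p) n)⁻¹ * tt (SS p) ^ j) ^ (-(k / j)))⁻¹ := by
    rw [e1]
    nth_rewrite 1 [e2]
    rw [← mulA, ← invA, map_mul, map_mul, map_mul, map_inv]
    group
  rw [e3]
  exact L.mul_mem (L.mul_mem hα ha') (L.inv_mem (L.zpow_mem hg _))

theorem t_CLIDX (h : S_CLM) : S_CLIDX := by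
  intro p _ hp j m hj
  refine ⟨j * ((m * 2 ^ j) * p ^ (2 * (2 * m) + m * 2 ^ j * 2 ^ j)), ?_⟩
  intro L g n hg hgL h1 h2
  subst hg
  have hA := cond_A h1
  have hL := cond_L h2
  obtain ⟨hi1, hi2⟩ := LB_index hj hL
  obtain ⟨hM1, hM2⟩ := M_card h hp hj hgL hA hL
  obtain ⟨F, hF⟩ := cosets hj hgL
  have hfq : Finite (Lam ⧸ LB p L) := by
    have : (LB p L).FiniteIndex := ⟨hi1⟩
    exact AddSubgroup.finite_quotient_of_finiteIndex
  have hfin : Finite (GG (SS p) ⧸ L) := Finite.of_surjective F hF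
  have hcard := Nat.card_le_card_of_surjective F hF
  rw [Nat.card_prod, Nat.card_prod, Nat.card_eq_fintype_card (α := Fin j), Fintype.card_fin]
    at hcard
  refine ⟨Subgroup.FiniteIndex.index_ne_zero (self := Subgroup.finiteIndex_of_finite_quotient), ?_⟩
  refine hcard.trans ?_
  gcongr
  exact hi2

end final

end

end Pool.Agent.N768.AS
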